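import Pool.Agent.W47.JL.Defs

/-!
Project JL: the analytic estimate for Hermite's polynomials.
-/

set_option autoImplicit false

namespace Pool.Agent.W349.JL

open Finset Polynomial
open Pool.Agent.W47.JL

theorem hasDeriv_aux (p : ℝ[X]) (x : ℝ) :
    HasDerivAt (fun y : ℝ => -(Real.exp (-y) * (sumIDeriv p).eval y))
      (Real.exp (-x) * p.eval x) x := by
  have h1 : HasDerivAt (fun y : ℝ => Real.exp (-y)) (-Real.exp (-x)) x := by
    have := (hasDerivAt_neg x).exp
    simpa using this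
  have h2 := (sumIDeriv p).hasDerivAt x
  have h3 := (h1.mul h2).neg
  refine h3.congr_deriv ?_
  have h4 : (sumIDeriv p).eval x = p.eval x + (derivative (sumIDeriv p)).eval x := by
    conv_lhs => rw [sumIDeriv_eq_self_add p]
    rw [eval_add]
  rw [h4]
  ring

theorem s_int : S_INT := by
  intro n
  refine ⟨Real.exp n * (n + 1) * ((n : ℝ) + 1) ^ (n + 1), ?_, ?_⟩
  · have h1 : 1 ≤ Real.exp n := Real.one_le_exp (Nat.cast_nonneg n)
    have h2 : (1 : ℝ) ≤ (n : ℝ) + 1 := by
      have : (0 : ℝ) ≤ n := Nat.cast_nonneg n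
      linarith
    have h3 : (1 : ℝ) ≤ ((n : ℝ) + 1) ^ (n + 1) := one_le_pow₀ h2
    exact one_le_mul_of_one_le_of_one_le (one_le_mul_of_one_le_of_one_le h1 h2) h3
  intro N k j hN hk hj
  set p : ℝ[X] := (f n N k).map (Int.castRingHom ℝ) with hp
  have hev : ∀ i : ℤ, (((sumIDeriv (f n N k)).eval i : ℤ) : ℝ) = (sumIDeriv p).eval (i : ℝ) := by
    intro i
    rw [hp, sumIDeriv_map, eval_intCast_map]
    simp
  have h0 := hev 0
  have hjj := hev (j : ℤ)
  rw [h0, hjj]
  push_cast
  have hn1 : (1 : ℝ) ≤ (n : ℝ) + 1 := by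
    have : (0 : ℝ) ≤ n := Nat.cast_nonneg n
    linarith
  have hjn : (j : ℝ) ≤ n := by exact_mod_cast hj
  have hbound : ∀ x ∈ Set.Icc (0 : ℝ) n, ‖Real.exp (-x) * p.eval x‖ ≤
      (((n : ℝ) + 1) ^ (n + 1)) ^ N := by
    intro x hx
    have h1 : p.eval x = ∏ i ∈ range (n + 1), (x - (i : ℝ)) ^ (if i = k then N - 1 else N) := by
      rw [hp, f, Polynomial.map_prod, eval_prod]
      refine Finset.prod_congr rfl fun i _ => ?_
      rw [Polynomial.map_pow, Polynomial.map_sub, map_X, map_C, eval_pow, eval_sub, eval_X, eval_C]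
      simp
    rw [norm_mul, Real.norm_of_nonneg (Real.exp_pos _).le]
    have h2 : Real.exp (-x) ≤ 1 := Real.exp_le_one_iff.2 (by linarith [hx.1])
    have h3 : ‖p.eval x‖ ≤ (((n : ℝ) + 1) ^ (n + 1)) ^ N := by
      rw [h1, Real.norm_eq_abs, Finset.abs_prod]
      calc ∏ i ∈ range (n + 1), |(x - (i : ℝ)) ^ (if i = k then N - 1 else N)|
          ≤ ∏ i ∈ range (n + 1), ((n : ℝ) + 1) ^ N := by
            refine Finset.prod_le_prod (fun i _ => abs_nonneg _) fun i hi => ?_
            rw [abs_pow]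
            have hi' : (i : ℝ) ≤ n := by
              have := Finset.mem_range.1 hi
              exact_mod_cast Nat.lt_succ_iff.1 this
            have hi0 : (0 : ℝ) ≤ i := Nat.cast_nonneg i
            have h4 : |x - (i : ℝ)| ≤ (n : ℝ) + 1 := by
              rw [abs_le]
              constructor
              · linarith [hx.1]
              · linarith [hx.2]
            calc |x - (i : ℝ)| ^ (if i = k then N - 1 else N)
                ≤ ((n : ℝ) + 1) ^ (if i = k then N - 1 else N) :=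
                  pow_le_pow_left₀ (abs_nonneg _) h4 _
              _ ≤ ((n : ℝ) + 1) ^ N := by
                  apply pow_le_pow_right₀ hn1
                  split_ifs <;> omega
        _ = (((n : ℝ) + 1) ^ (n + 1)) ^ N := by
            rw [Finset.prod_const, Finset.card_range, ← pow_mul, ← pow_mul, mul_comm]
    calc Real.exp (-x) * ‖p.eval x‖ ≤ 1 * (((n : ℝ) + 1) ^ (n + 1)) ^ N :=
          mul_le_mul h2 h3 (norm_nonneg _) zero_le_one
      _ = _ := one_mul _
  have hmv := Convex.norm_image_sub_le_of_norm_hasDerivWithin_le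
    (f := fun y : ℝ => -(Real.exp (-y) * (sumIDeriv p).eval y))
    (f' := fun x => Real.exp (-x) * p.eval x) (s := Set.Icc (0 : ℝ) n) (x := 0) (y := j)
    (C := (((n : ℝ) + 1) ^ (n + 1)) ^ N)
    (fun x _ => (hasDeriv_aux p x).hasDerivWithinAt) hbound (convex_Icc _ _)
    ⟨le_refl _, Nat.cast_nonneg n⟩ ⟨Nat.cast_nonneg j, hjn⟩
  simp only [neg_zero, Real.exp_zero, one_mul, sub_neg_eq_add, sub_zero] at hmv
  have hkey : (sumIDeriv p).eval 0 * Real.exp j - (sumIDeriv p).eval (j : ℝ) =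
      Real.exp j * (-(Real.exp (-(j : ℝ)) * (sumIDeriv p).eval (j : ℝ)) +
        (sumIDeriv p).eval 0) := by
    rw [Real.exp_neg]
    field_simp
    ring
  rw [hkey, abs_mul, abs_of_pos (Real.exp_pos _)]
  rw [Real.norm_eq_abs, Real.norm_of_nonneg (Nat.cast_nonneg j)] at hmv
  have hA : (1 : ℝ) ≤ Real.exp n * (n + 1) := by
    have h1 : 1 ≤ Real.exp n := Real.one_le_exp (Nat.cast_nonneg n)
    exact one_le_mul_of_one_le_of_one_le h1 hn1
  calc Real.exp j * |-(Real.exp (-(j : ℝ)) * (sumIDeriv p).eval (j : ℝ)) + (sumIDeriv p).eval 0|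
      ≤ Real.exp n * ((((n : ℝ) + 1) ^ (n + 1)) ^ N * (n + 1)) := by
        refine mul_le_mul (Real.exp_le_exp.2 hjn) (hmv.trans ?_) (abs_nonneg _)
          (Real.exp_pos _).le
        exact mul_le_mul_of_nonneg_left (by linarith) (by positivity)
    _ = (Real.exp n * (n + 1)) * (((n : ℝ) + 1) ^ (n + 1)) ^ N := by ring
    _ ≤ (Real.exp n * (n + 1)) ^ N * (((n : ℝ) + 1) ^ (n + 1)) ^ N := by
        apply mul_le_mul_of_nonneg_right _ (by positivity)
        exact le_self_pow₀ hA (by omega)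
    _ = _ := by rw [← mul_pow]

end Pool.Agent.W349.JL
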