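import Pool.Agent.W47.JL.Defs

/-!
Project JL: the size of `∑ f^(m)(0)` for Hermite's polynomials.
-/

set_option autoImplicit false

namespace Pool.Agent.W349.JL

open Finset Polynomial
open Pool.Agent.W47.JL

/-- coefficientwise domination -/
def Dom (p q : ℤ[X]) : Prop := ∀ i, |p.coeff i| ≤ q.coeff i

theorem Dom.mul {p q p' q' : ℤ[X]} (h : Dom p q) (h' : Dom p' q') : Dom (p * p') (q * q') := by
  intro i
  rw [coeff_mul, coeff_mul]
  refine (Finset.abs_sum_le_sum_abs _ _).trans (Finset.sum_le_sum fun x _ => ?_)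
  rw [abs_mul]
  exact mul_le_mul (h _) (h' _) (abs_nonneg _) ((abs_nonneg _).trans (h _))

theorem Dom.one : Dom 1 1 := by
  intro i
  rw [coeff_one]
  split_ifs <;> simp

theorem Dom.pow {p q : ℤ[X]} (h : Dom p q) (k : ℕ) : Dom (p ^ k) (q ^ k) := by
  induction k with
  | zero => rw [pow_zero, pow_zero]; exact Dom.one
  | succ k ih => rw [pow_succ, pow_succ]; exact ih.mul h

theorem Dom.prod {ι : Type} (s : Finset ι) (p q : ι → ℤ[X]) (h : ∀ i ∈ s, Dom (p i) (q i)) :
    Dom (∏ i ∈ s, p i) (∏ i ∈ s, q i) := by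
  classical
  induction s using Finset.induction_on with
  | empty => rw [prod_empty, prod_empty]; exact Dom.one
  | insert a s ha ih =>
    rw [prod_insert ha, prod_insert ha]
    exact (h a (mem_insert_self _ _)).mul (ih fun i hi => h i (mem_insert_of_mem hi))

theorem dom_lin (i : ℕ) : Dom (X - C (i : ℤ)) (X + C (i : ℤ)) := by
  intro m
  rw [coeff_sub, coeff_add, coeff_X, coeff_C]
  split_ifs with h1 h2 h2
  · omega
  · simp
  · simp
  · simp

theorem fact_bound (k : ℕ) : ∃ D : ℕ, 1 ≤ D ∧ ∀ N : ℕ,
    (k * N).factorial ≤ D ^ N * N.factorial ^ k := by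
  induction k with
  | zero => exact ⟨1, le_refl _, fun N => by simp⟩
  | succ k ih =>
    obtain ⟨D, hD, h⟩ := ih
    refine ⟨D * 2 ^ (k + 1), ?_, fun N => ?_⟩
    · exact Nat.mul_pos hD (by positivity)
    · have h1 := Nat.add_choose_mul_factorial_mul_factorial (k * N) N
      have h2 : (k * N + N).choose N ≤ 2 ^ (k * N + N) := Nat.choose_le_two_pow _ _
      have e : (k + 1) * N = k * N + N := by ring
      rw [e, ← h1]
      calc (k * N + N).choose N * (k * N).factorial * N.factorial
          ≤ 2 ^ (k * N + N) * (D ^ N * N.factorial ^ k) * N.factorial := by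
            gcongr
            exact h N
        _ = (D * 2 ^ (k + 1)) ^ N * N.factorial ^ (k + 1) := by
            rw [mul_pow, ← pow_mul]
            ring

theorem s_size : S_SIZE := by
  intro n
  obtain ⟨D, hD, hfac⟩ := fact_bound (n + 1)
  refine ⟨(((n + 1).factorial * D : ℕ) : ℝ), ?_, ?_⟩
  · have : 1 ≤ (n + 1).factorial * D := Nat.mul_pos (Nat.factorial_pos _) hD
    exact_mod_cast this
  intro N k hN hk
  have hnat : (∏ i ∈ range (n + 1), (X - C (i : ℤ)) ^ (if i = k then N - 1 else N) :
      ℤ[X]).natDegree ≤ (n + 1) * N := by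
    refine (natDegree_prod_le _ _).trans ?_
    calc ∑ i ∈ range (n + 1), ((X - C (i : ℤ)) ^ (if i = k then N - 1 else N) : ℤ[X]).natDegree
        ≤ ∑ i ∈ range (n + 1), N := by
          refine Finset.sum_le_sum fun i _ => ?_
          refine natDegree_pow_le.trans ?_
          rw [natDegree_X_sub_C, mul_one]
          split_ifs <;> omega
      _ = (n + 1) * N := by simp
  have hval : (sumIDeriv (f n N k)).eval 0 =
      ∑ m ∈ range ((n + 1) * N + 1), (m.factorial : ℤ) * (f n N k).coeff m := by
    have hnat' : (f n N k).natDegree ≤ (n + 1) * N := hnat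
    rw [sumIDeriv_apply_of_le hnat', eval_finsetSum]
    refine Finset.sum_congr rfl fun m _ => ?_
    rw [← coeff_zero_eq_eval_zero, coeff_iterate_derivative, zero_add, Nat.descFactorial_self]
    simp
  set g : ℤ[X] := ∏ i ∈ range (n + 1), (X + C (i : ℤ)) ^ (if i = k then N - 1 else N) with hg
  have hdom : Dom (f n N k) g := Dom.prod _ _ _ fun i _ => (dom_lin i).pow _
  have hgnat : g.natDegree < (n + 1) * N + 1 := by
    rw [Nat.lt_succ_iff, hg]
    refine (natDegree_prod_le _ _).trans ?_
    calc ∑ i ∈ range (n + 1), ((X + C (i : ℤ)) ^ (if i = k then N - 1 else N) : ℤ[X]).natDegree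
        ≤ ∑ i ∈ range (n + 1), N := by
          refine Finset.sum_le_sum fun i _ => ?_
          refine natDegree_pow_le.trans ?_
          rw [natDegree_X_add_C, mul_one]
          split_ifs <;> omega
      _ = (n + 1) * N := by simp
  have hg1 : ∑ m ∈ range ((n + 1) * N + 1), g.coeff m ≤ ((n + 1).factorial : ℤ) ^ N := by
    have h1 : g.eval 1 = ∑ m ∈ range ((n + 1) * N + 1), g.coeff m := by
      rw [eval_eq_sum_range' hgnat]
      simp
    rw [← h1, hg, eval_prod]
    calc ∏ i ∈ range (n + 1), eval 1 ((X + C (i : ℤ)) ^ (if i = k then N - 1 else N) : ℤ[X])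
        ≤ ∏ i ∈ range (n + 1), ((i : ℤ) + 1) ^ N := by
          refine Finset.prod_le_prod (fun i _ => ?_) fun i _ => ?_
          · rw [eval_pow, eval_add, eval_X, eval_C]; positivity
          · rw [eval_pow, eval_add, eval_X, eval_C, add_comm]
            apply pow_le_pow_right₀
            · omega
            · split_ifs <;> omega
      _ = ((n + 1).factorial : ℤ) ^ N := by
          rw [Finset.prod_pow, ← Finset.prod_range_add_one_eq_factorial]
          push_cast
          rfl
  have hmain : |(sumIDeriv (f n N k)).eval 0| ≤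
      (((n + 1).factorial * D) ^ N * N.factorial ^ (n + 1) : ℕ) := by
    rw [hval]
    calc |∑ m ∈ range ((n + 1) * N + 1), (m.factorial : ℤ) * (f n N k).coeff m|
        ≤ ∑ m ∈ range ((n + 1) * N + 1), |(m.factorial : ℤ) * (f n N k).coeff m| :=
          Finset.abs_sum_le_sum_abs _ _
      _ ≤ ∑ m ∈ range ((n + 1) * N + 1), (((n + 1) * N).factorial : ℤ) * g.coeff m := by
          refine Finset.sum_le_sum fun m hm => ?_
          rw [abs_mul, Nat.abs_cast]
          have h1 : (m.factorial : ℤ) ≤ (((n + 1) * N).factorial : ℤ) := by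
            have : m ≤ (n + 1) * N := by
              have := Finset.mem_range.1 hm
              omega
            exact_mod_cast Nat.factorial_le this
          exact mul_le_mul h1 (hdom m) (abs_nonneg _) (by positivity)
      _ = (((n + 1) * N).factorial : ℤ) * ∑ m ∈ range ((n + 1) * N + 1), g.coeff m := by
          rw [Finset.mul_sum]
      _ ≤ ((D ^ N * N.factorial ^ (n + 1) : ℕ) : ℤ) * ((n + 1).factorial : ℤ) ^ N := by
          have h2 : (((n + 1) * N).factorial : ℤ) ≤ ((D ^ N * N.factorial ^ (n + 1) : ℕ) : ℤ) := by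
            exact_mod_cast hfac N
          have h3 : 0 ≤ ∑ m ∈ range ((n + 1) * N + 1), g.coeff m :=
            Finset.sum_nonneg fun m _ => (abs_nonneg _).trans (hdom m)
          exact mul_le_mul h2 hg1 h3 (by positivity)
      _ = _ := by
          push_cast
          ring
  have h5 : ((|(sumIDeriv (f n N k)).eval 0| : ℤ) : ℝ) ≤
      (((((n + 1).factorial * D) ^ N * N.factorial ^ (n + 1) : ℕ) : ℤ) : ℝ) := by
    exact_mod_cast hmain
  rw [Int.cast_abs] at h5
  refine h5.trans (le_of_eq ?_)
  push_cast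
  ring

end Pool.Agent.W349.JL
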